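import Pool.Agent.V11329.JS.Cor
import Pool.Agent.Y723.SJ.Cmp

/-!
# The Selmer groups of the Jacobians of the curves `y² = ∏ (x - a i)`
-/

set_option autoImplicit false

namespace Pool.Agent.V11329.JS

open Pool.Agent.Y723.SJ
open Pool.Agent.V11329.KI (Fix dl approx)

variable {g : ℕ} {a : Fin (2 * g + 1) → ℤ}

/-- the action by homomorphisms -/
noncomputable def sJ (a : Fin (2 * g + 1) → ℤ) (σ : GQ) : Jac a QB →+ Jac a QB :=
  AddMonoidHom.mk' (act a σ) (act_add a σ)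

lemma fix_eq (a : Fin (2 * g + 1) → ℤ) : Fix (sJ a) = JacQ a := rfl

/-- the group of the points is divisible by two -/
lemma div2J (ha : Function.Injective a) (x : Jac a QB) : ∃ y : Jac a QB, 2 • y = x := by
  have _ := Pool.Agent.Y723.HJ.charQB
  have _ : Pool.Agent.Y723.HJ.HF (Pool.Agent.Y723.HJ.hpol a QB) := Pool.Agent.Y723.HJ.hpolHF ha _
  obtain ⟨P, hP⟩ := Pool.Agent.Y723.HJ.halve (a := a) ((eJ a QB).symm x)
  refine ⟨eJ a QB P, ?_⟩
  rw [two_nsmul, ← map_add, hP, AddEquiv.apply_symm_apply]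

/-- coboundaries are locally trivial -/
lemma cob_mem (ha : Function.Injective a) (P : Jac a QB) :
    (fun σ => act a σ P - P) ∈ shaCocycles a := by
  have _ := Pool.Agent.Y723.HJ.charQB
  have _ : Pool.Agent.Y723.HJ.HF (Pool.Agent.Y723.HJ.hpol a QB) := Pool.Agent.Y723.HJ.hpolHF ha _
  have h := Pool.Agent.Y723.HJ.cob_sha ha ((eJ a QB).symm P)
  have h2 := (sha_iff a _).1 h
  have e : eF a (fun σ => Pool.Agent.Y723.HJ.act a σ ((eJ a QB).symm P) - (eJ a QB).symm P) =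
      fun σ => act a σ P - P := by
    funext σ
    rw [eF_apply, map_sub, act_eq, AddEquiv.apply_symm_apply]
  rwa [e] at h2

/-- cocycles take finitely many values -/
lemma torJ (f : GQ → Jac a QB) (hf : f ∈ shaCocycles a) (h : ∀ σ, ∃ m : ℕ, (2 ^ m : ℕ) • f σ = 0) :
    ∃ K : ℕ, ∀ σ, (2 ^ K : ℕ) • f σ = 0 := by
  have _ := Pool.Agent.Y723.HJ.galQB
  have hfin : (Set.range f).Finite := hf.1.1.range_finite
  choose e he using h
  have hex : ∀ y ∈ Set.range f, ∃ k : ℕ, (2 ^ k : ℕ) • y = 0 := by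
    rintro y ⟨σ, rfl⟩
    exact ⟨e σ, he σ⟩
  choose! k hk using hex
  obtain ⟨K, hK⟩ := (hfin.image k).bddAbove
  refine ⟨K, fun σ => ?_⟩
  have h1 := hk _ (Set.mem_range_self σ)
  have h2 : k (f σ) ≤ K := hK ⟨_, Set.mem_range_self σ, rfl⟩
  rw [← Nat.sub_add_cancel h2, pow_add, mul_smul, h1, smul_zero]

/-- the Selmer condition is stable under scalars -/
lemma selJ_smul (α : ℚ_[2]) {c : GQ → VT 2 (Jac a QB)}
    (hc : ∀ n, (fun σ => (c σ).1 n) ∈ shaCocycles a) (n : ℕ) :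
    (fun σ => (α • c σ).1 n) ∈ shaCocycles a :=
  sel_smul (S := shaCocycles a) torJ α hc n

lemma cobJ_smul (α : ℚ_[2]) {c : GQ → VT 2 (Jac a QB)} {x : VT 2 (Jac a QB)}
    (h : ∀ σ n, (c σ).1 n = act a σ (x.1 n) - x.1 n) (σ : GQ) (n : ℕ) :
    (α • c σ).1 n = act a σ ((α • x).1 n) - (α • x).1 n :=
  cob_smul (sJ a σ) α (h σ) n

/-- the Selmer cocycles -/
noncomputable def selC (a : Fin (2 * g + 1) → ℤ) : Submodule ℚ_[2] (GQ → VT 2 (Jac a QB)) where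
  carrier := {c | ∀ n, (fun σ => (c σ).1 n) ∈ shaCocycles a}
  zero_mem' := fun _ => (shaCocycles a).zero_mem
  add_mem' := fun hx hy n => (shaCocycles a).add_mem (hx n) (hy n)
  smul_mem' := fun α _ hx n => selJ_smul α hx n

/-- the coboundaries -/
noncomputable def cobC (a : Fin (2 * g + 1) → ℤ) : Submodule ℚ_[2] (GQ → VT 2 (Jac a QB)) where
  carrier := {c | ∃ x : VT 2 (Jac a QB), ∀ σ n, (c σ).1 n = act a σ (x.1 n) - x.1 n}
  zero_mem' := ⟨0, fun σ n => by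
    show (0 : Jac a QB) = act a σ 0 - 0
    rw [act_zero, sub_zero]⟩
  add_mem' := by
    rintro c d ⟨x, hx⟩ ⟨y, hy⟩
    refine ⟨x + y, fun σ n => ?_⟩
    show (c σ).1 n + (d σ).1 n = act a σ (x.1 n + y.1 n) - (x.1 n + y.1 n)
    rw [hx, hy, act_add]
    abel
  smul_mem' := by
    rintro α c ⟨x, hx⟩
    exact ⟨α • x, fun σ n => cobJ_smul α hx σ n⟩

section main

variable {Z B : Submodule ℚ_[2] (GQ → VT 2 (Jac a QB))}

/-- **the dimensions** -/
theorem dimsJ (hZ : ∀ c, c ∈ Z ↔ ∀ n, (fun σ => (c σ).1 n) ∈ shaCocycles a)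
    (hB : ∀ c, c ∈ B ↔ ∃ x : VT 2 (Jac a QB), ∀ σ n, (c σ).1 n = act a σ (x.1 n) - x.1 n)
    (ha : Function.Injective a) (hS : Finite (ShaTorsion a 2)) (hQ : Finite (QuotQ a 2)) :
    Module.Finite ℚ_[2] (Z ⧸ B.comap Z.subtype) ∧
    2 ^ Module.finrank ℚ_[2] (Z ⧸ B.comap Z.subtype) ≤
      Nat.card (QuotQ a 2) * Nat.card (ShaTorsion a 2) ∧
    ∀ K : Submodule ℚ_[2] (Z ⧸ B.comap Z.subtype),
      (∀ c : Z, (∃ Q : ℕ → Jac a QB, Q 0 ∈ JacQ a ∧ (∀ n, 2 • Q (n + 1) = Q n) ∧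
        ∀ σ n, (c.1 σ).1 n = act a σ (Q n) - Q n) →
          (Submodule.Quotient.mk c : Z ⧸ B.comap Z.subtype) ∈ K) →
      Module.finrank ℚ_[2] ((Z ⧸ B.comap Z.subtype) ⧸ K) ≤
        Pool.Agent.TH344.SG.corank2 (Sha a) := by
  obtain ⟨r, t, h1, h2, h3, h4, h5, h6⟩ := dims (p := 2) (s := sJ a) (S := shaCocycles a)
    (C := coboundaries a) (div2J ha) Z B hZ hB
    (fun f => Iff.rfl) (cob_mem ha) torJ hS hQ
  refine ⟨h4, ?_, fun K hK => (h6 K hK).trans ?_⟩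
  · calc 2 ^ Module.finrank ℚ_[2] (Z ⧸ B.comap Z.subtype) ≤ 2 ^ (r + t) :=
          Nat.pow_le_pow_right (by norm_num) h5
      _ = 2 ^ r * 2 ^ t := pow_add _ _ _
      _ ≤ _ := Nat.mul_le_mul (le_of_eq h1) h2
  · have hfin : Finite {c : Sha a // 2 ^ 1 • c = 0} := by
      rw [pow_one]
      exact hS
    refine le_csSup ⟨Nat.card {c : Sha a // 2 ^ 1 • c = 0}, fun u hu => ?_⟩ h3
    have h7 := Pool.Agent.TH344.SG.pow_le_of hfin (hu 1)
    have h8 : u < 2 ^ u := Nat.lt_pow_self (by norm_num)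
    have h9 : (2 ^ 1 : ℕ) ^ u = 2 ^ u := by rw [pow_one]
    rw [h9] at h7
    omega

/-- **the vanishing** -/
theorem vanishJ (hZ : ∀ c, c ∈ Z ↔ ∀ n, (fun σ => (c σ).1 n) ∈ shaCocycles a)
    (hB : ∀ c, c ∈ B ↔ ∃ x : VT 2 (Jac a QB), ∀ σ n, (c σ).1 n = act a σ (x.1 n) - x.1 n)
    (ha : Function.Injective a)
    (hS : Nat.card (ShaTorsion a 2) = 1) (h0 : Nat.card (QuotQ a 2) ≠ 0)
    (h : Nat.card (QuotQ a (2 ^ 2)) = Nat.card (QuotQ a 2)) :
    Subsingleton (Z ⧸ B.comap Z.subtype) := by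
  have h1 := vanish (p := 2) (s := sJ a) (S := shaCocycles a)
    (C := coboundaries a) (div2J ha) Z B hZ hB
    (fun f => Iff.rfl) (cob_mem ha) torJ hS h0 h
  refine ⟨fun x y => ?_⟩
  have hz : ∀ z : Z ⧸ B.comap Z.subtype, z = 0 := by
    intro z
    obtain ⟨c, rfl⟩ := Submodule.Quotient.mk_surjective _ z
    exact (Submodule.Quotient.mk_eq_zero _).2 (h1 c.2)
  rw [hz x, hz y]

end main

end Pool.Agent.V11329.JS
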