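import Pool.Agent.V11329.JS.Mod

/-!
# The rational Tate module as a vector space (the form used in the statements)
-/

set_option autoImplicit false

namespace Pool.Agent.V11329.JS

open Pool.Agent.V11329.KI

/-- The rational Tate module `V_p(A)`: its elements are the sequences `x₀, x₁, …` of elements of
`p`-power order of `A` with `p x_{n+1} = x_n`. -/
def V (p : ℕ) (A : Type) [AddCommGroup A] : Type := VT p A

section

variable {p : ℕ} {A : Type} [AddCommGroup A]

/-- the sum of sequences -/
instance instV : AddCommGroup (V p A) := AddSubgroup.toAddCommGroup (VT p A)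

/-- The `n`-th element of the sequence `x`. -/
def V.seq (x : V p A) (n : ℕ) : A := Subtype.val x n

variable [Fact p.Prime]

/-- The product of the `p`-adic number `α` and of the sequence `x`: its `n`-th element is
`a x_{n+k}` for all `k` and all integers `a` that are so close to `p ^ k α` that `a x_{n+k}` does not
depend on the choice. -/
noncomputable instance smulV : SMul ℚ_[p] (V p A) := ⟨fun α x => ⟨mul α x.1, mul_isV α x.2⟩⟩

lemma V.one_smul' (x : V p A) : (1 : ℚ_[p]) • x = x := 
  one_smul ℚ_[p] (show VT p A from x)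

lemma V.mul_smul' (α β : ℚ_[p]) (x : V p A) : (α * β) • x = α • β • x :=
  mul_smul (α := ℚ_[p]) (β := VT p A) α β x

lemma V.smul_zero' (α : ℚ_[p]) : α • (0 : V p A) = 0 := smul_zero (M := ℚ_[p]) (A := VT p A) α

lemma V.smul_add' (α : ℚ_[p]) (x y : V p A) : α • (x + y) = α • x + α • y :=
  smul_add (M := ℚ_[p]) (A := VT p A) α x y

lemma V.add_smul' (α β : ℚ_[p]) (x : V p A) : (α + β) • x = α • x + β • x :=
  add_smul (R := ℚ_[p]) (M := VT p A) α β x

lemma V.zero_smul' (x : V p A) : (0 : ℚ_[p]) • x = 0 := 
  zero_smul ℚ_[p] (show VT p A from x)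

/-- `V_p(A)` is a vector space over `ℚ_p` -/
noncomputable instance modV : Module ℚ_[p] (V p A) where
  one_smul := V.one_smul'
  mul_smul := V.mul_smul'
  smul_zero := V.smul_zero'
  smul_add := V.smul_add'
  add_smul := V.add_smul'
  zero_smul := V.zero_smul'

/-- the characterisation of the product -/
lemma V.smul_seq {α : ℚ_[p]} {x : V p A} {n k m : ℕ} {a : ℤ} (h : (p ^ m : ℕ) • x.seq (n + k) = 0)
    (ha : ‖(p : ℚ_[p]) ^ k * α - (a : ℚ_[p])‖ ≤ (p : ℝ) ^ (-(m : ℤ))) :
    (α • x).seq n = a • x.seq (n + k) := smul_coord (x := x) h ha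

end

end Pool.Agent.V11329.JS
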