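import Pool.Agent.V11329.JS.Dim

/-!
# The dimension of the Selmer group and the cokernel of the Kummer map
-/

set_option autoImplicit false

namespace Pool.Agent.V11329.JS

open Pool.Agent.V11329.KI

section

variable {G : Type} {A : Type} [AddCommGroup A] {p : ℕ} [Fact p.Prime]
variable {s : G → A →+ A} {S C : AddSubgroup (G → A)}

lemma sel_smul (htor : ∀ f ∈ S, (∀ σ, ∃ m : ℕ, (p ^ m : ℕ) • f σ = 0) →
      ∃ K : ℕ, ∀ σ, (p ^ K : ℕ) • f σ = 0) (α : ℚ_[p]) {c : G → VT p A}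
    (hc : ∀ n, (fun σ => (c σ).1 n) ∈ S) (n : ℕ) : (fun σ => (α • c σ).1 n) ∈ S := by
  obtain ⟨k, hk⟩ := approx α
  obtain ⟨K, hK⟩ := htor _ (hc (n + k)) (fun σ => ((c σ).2 (n + k)).2)
  obtain ⟨a, ha⟩ := hk k le_rfl K
  have e : (fun σ => (α • c σ).1 n) = a • (fun σ => (c σ).1 (n + k)) := by
    funext σ
    exact smul_coord (hK σ) ha
  rw [e]
  exact S.zsmul_mem (hc _) a

lemma cob_smul (f : A →+ A) (α : ℚ_[p]) {x y : VT p A} (h : ∀ n, y.1 n = f (x.1 n) - x.1 n)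
    (n : ℕ) : (α • y).1 n = f ((α • x).1 n) - (α • x).1 n := by
  obtain ⟨k, hk⟩ := approx α
  obtain ⟨m, hm⟩ := (x.2 (n + k)).2
  obtain ⟨a, ha⟩ := hk k le_rfl m
  have hy : (p ^ m : ℕ) • y.1 (n + k) = 0 := by
    rw [h, smul_sub, hm, ← map_nsmul, hm, map_zero, sub_zero]
  rw [smul_coord hy ha, smul_coord hm ha, h, smul_sub, map_zsmul]

/-- **The theorem on the dimensions.** -/
theorem dims (hdiv : ∀ x : A, ∃ y, p • y = x)
    (Z B : Submodule ℚ_[p] (G → VT p A))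
    (hZ : ∀ c, c ∈ Z ↔ ∀ n, (fun σ => (c σ).1 n) ∈ S)
    (hB : ∀ c, c ∈ B ↔ ∃ x : VT p A, ∀ σ n, (c σ).1 n = s σ (x.1 n) - x.1 n)
    (hC : ∀ f, f ∈ C ↔ ∃ P, ∀ σ, f σ = s σ P - P)
    (hcob : ∀ P, dl s P ∈ S)
    (htor : ∀ f ∈ S, (∀ σ, ∃ m : ℕ, (p ^ m : ℕ) • f σ = 0) → ∃ K : ℕ, ∀ σ, (p ^ K : ℕ) • f σ = 0)
    (hSha : Finite {x : S ⧸ C.addSubgroupOf S // p • x = 0})
    (hQ : Finite (Fix s ⧸ (nsmulAddMonoidHom p : Fix s →+ Fix s).range)) :
    ∃ r t : ℕ, p ^ r = Nat.card (Fix s ⧸ (nsmulAddMonoidHom p : Fix s →+ Fix s).range) ∧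
      p ^ t ≤ Nat.card {x : S ⧸ C.addSubgroupOf S // p • x = 0} ∧
      (∀ n : ℕ, ∃ f : (Fin t → ZMod (p ^ n)) →+ S ⧸ C.addSubgroupOf S, Function.Injective f) ∧
      Module.Finite ℚ_[p] (Z ⧸ B.comap Z.subtype) ∧
      Module.finrank ℚ_[p] (Z ⧸ B.comap Z.subtype) ≤ r + t ∧
      ∀ K : Submodule ℚ_[p] (Z ⧸ B.comap Z.subtype),
        (∀ c : Z, (∃ Q : ℕ → A, Q 0 ∈ Fix s ∧ (∀ n, p • Q (n + 1) = Q n) ∧
          ∀ σ n, (c.1 σ).1 n = s σ (Q n) - Q n) →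
            (Submodule.Quotient.mk c : Z ⧸ B.comap Z.subtype) ∈ K) →
        Module.finrank ℚ_[p] ((Z ⧸ B.comap Z.subtype) ⧸ K) ≤ t := by
  obtain ⟨r, t, h1, h2, h3, cj, kj, hkj, hgen⟩ := main hdiv Z B hZ hB hC hcob htor hSha hQ
  have hgen' : ∀ c : Z, ∃ (β : Fin t → ℚ_[p]) (α : Fin r → ℚ_[p]),
      (Submodule.Quotient.mk c : Z ⧸ B.comap Z.subtype) =
        ∑ j, β j • Submodule.Quotient.mk (cj j) + ∑ i, α i • Submodule.Quotient.mk (kj i) := by
    intro c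
    obtain ⟨β, α, h⟩ := hgen c
    refine ⟨β, α, ?_⟩
    have e : c - ∑ j, β j • cj j - ∑ i, α i • kj i ∈ B.comap Z.subtype := by
      rw [Submodule.mem_comap, map_sub, map_sub, map_sum, map_sum]
      exact h
    have e2 := (Submodule.Quotient.mk_eq_zero _).2 e
    have e3 : (Submodule.Quotient.mk (c - ∑ j, β j • cj j - ∑ i, α i • kj i) :
        Z ⧸ B.comap Z.subtype) = Submodule.Quotient.mk c -
          ∑ j, β j • Submodule.Quotient.mk (cj j) - ∑ i, α i • Submodule.Quotient.mk (kj i) := by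
      have h4 : ∀ x : Z, (Submodule.Quotient.mk x : Z ⧸ B.comap Z.subtype) =
        (B.comap Z.subtype).mkQ x := fun x => rfl
      simp only [h4, map_sub, map_sum, map_smul]
    rw [e3] at e2
    rw [sub_sub, sub_eq_zero] at e2
    exact e2
  obtain ⟨v, hv⟩ : ∃ v : Fin t ⊕ Fin r → Z ⧸ B.comap Z.subtype,
      v = Sum.elim (fun j => Submodule.Quotient.mk (cj j)) (fun i => Submodule.Quotient.mk (kj i)) :=
    ⟨_, rfl⟩
  have hspan : Submodule.span ℚ_[p] (Set.range v) = ⊤ := by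
    rw [eq_top_iff]
    intro x _
    obtain ⟨c, rfl⟩ := Submodule.Quotient.mk_surjective _ x
    obtain ⟨β, α, h⟩ := hgen' c
    rw [h]
    refine Submodule.add_mem _ (Submodule.sum_mem _ fun j _ => Submodule.smul_mem _ _
      (Submodule.subset_span ⟨Sum.inl j, by rw [hv]; rfl⟩))
      (Submodule.sum_mem _ fun i _ => Submodule.smul_mem _ _
      (Submodule.subset_span ⟨Sum.inr i, by rw [hv]; rfl⟩))
  have hfin : Module.Finite ℚ_[p] (Z ⧸ B.comap Z.subtype) := by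
    rw [Module.finite_def, ← hspan]
    exact Submodule.fg_span (Set.finite_range v)
  refine ⟨r, t, h1, h2, h3, hfin, ?_, fun K hK => ?_⟩
  · have h4 := finrank_range_le_card (R := ℚ_[p]) v
    unfold Set.finrank at h4
    rw [hspan, finrank_top, Fintype.card_sum, Fintype.card_fin, Fintype.card_fin, add_comm] at h4
    exact h4
  · have hspan2 : Submodule.span ℚ_[p] (Set.range fun j =>
        K.mkQ (Submodule.Quotient.mk (cj j))) = ⊤ := by
      rw [eq_top_iff]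
      intro x _
      obtain ⟨y, rfl⟩ := Submodule.mkQ_surjective K x
      obtain ⟨c, rfl⟩ := Submodule.Quotient.mk_surjective _ y
      obtain ⟨β, α, h⟩ := hgen' c
      have h5 : K.mkQ (∑ i, α i • Submodule.Quotient.mk (kj i)) = 0 := by
        rw [Submodule.mkQ_apply, Submodule.Quotient.mk_eq_zero]
        exact Submodule.sum_mem _ fun i _ => Submodule.smul_mem _ _ (hK _ (hkj i))
      rw [h, map_add, h5, add_zero, map_sum]
      refine Submodule.sum_mem _ fun j _ => ?_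
      rw [map_smul]
      exact Submodule.smul_mem _ _ (Submodule.subset_span ⟨j, rfl⟩)
    have h4 := finrank_range_le_card (R := ℚ_[p]) fun j => K.mkQ (Submodule.Quotient.mk (cj j))
    unfold Set.finrank at h4
    rw [hspan2, finrank_top, Fintype.card_fin] at h4
    exact h4

omit [Fact p.Prime] in
/-- `F / p` and `F / p²` have the same number of elements -/
lemma div_mul {F : Type} [AddCommGroup F]
    (h0 : Nat.card (F ⧸ (nsmulAddMonoidHom p : F →+ F).range) ≠ 0)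
    (h : Nat.card (F ⧸ (nsmulAddMonoidHom (p ^ 2) : F →+ F).range) =
      Nat.card (F ⧸ (nsmulAddMonoidHom p : F →+ F).range)) (x : F) : ∃ y : F, p • x = p • (p • y) := by
  have hle : (nsmulAddMonoidHom (p ^ 2) : F →+ F).range ≤ (nsmulAddMonoidHom p : F →+ F).range := by
    rintro _ ⟨y, rfl⟩
    refine ⟨p • y, ?_⟩
    rw [nsmulAddMonoidHom_apply, nsmulAddMonoidHom_apply, ← mul_smul, pow_two]
  have h1 := AddSubgroup.relIndex_mul_index hle
  have h2 : (nsmulAddMonoidHom (p ^ 2) : F →+ F).range.index = (nsmulAddMonoidHom p : F →+ F).range.index := h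
  have h3 : (nsmulAddMonoidHom p : F →+ F).range.index ≠ 0 := h0
  rw [h2] at h1
  have h4 : (nsmulAddMonoidHom (p ^ 2) : F →+ F).range.relIndex (nsmulAddMonoidHom p : F →+ F).range = 1 :=
    Nat.eq_of_mul_eq_mul_right (Nat.pos_of_ne_zero h3) (by rw [h1, one_mul])
  rw [AddSubgroup.relIndex_eq_one] at h4
  obtain ⟨y, hy⟩ := h4 ⟨x, rfl⟩
  refine ⟨y, ?_⟩
  rw [← mul_smul, ← pow_two]
  exact hy.symm

/-- **The vanishing theorem.** -/
theorem vanish (hdiv : ∀ x : A, ∃ y, p • y = x)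
    (Z B : Submodule ℚ_[p] (G → VT p A))
    (hZ : ∀ c, c ∈ Z ↔ ∀ n, (fun σ => (c σ).1 n) ∈ S)
    (hB : ∀ c, c ∈ B ↔ ∃ x : VT p A, ∀ σ n, (c σ).1 n = s σ (x.1 n) - x.1 n)
    (hC : ∀ f, f ∈ C ↔ ∃ P, ∀ σ, f σ = s σ P - P)
    (hcob : ∀ P, dl s P ∈ S)
    (htor : ∀ f ∈ S, (∀ σ, ∃ m : ℕ, (p ^ m : ℕ) • f σ = 0) → ∃ K : ℕ, ∀ σ, (p ^ K : ℕ) • f σ = 0)
    (hSha : Nat.card {x : S ⧸ C.addSubgroupOf S // p • x = 0} = 1)
    (h0 : Nat.card (Fix s ⧸ (nsmulAddMonoidHom p : Fix s →+ Fix s).range) ≠ 0)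
    (h : Nat.card (Fix s ⧸ (nsmulAddMonoidHom (p ^ 2) : Fix s →+ Fix s).range) =
      Nat.card (Fix s ⧸ (nsmulAddMonoidHom p : Fix s →+ Fix s).range)) :
    Z ≤ B := by
  have hp0 : ((p : ℕ) : ℚ_[p]) ≠ 0 := by
    have := (Fact.out : p.Prime).ne_zero
    exact_mod_cast this
  obtain ⟨r, t, h1, h2, h3, cj, kj, hkj, hgen⟩ := main hdiv Z B hZ hB hC hcob htor
    (Nat.finite_of_card_ne_zero (by rw [hSha]; exact one_ne_zero)) (Nat.finite_of_card_ne_zero h0)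
  have ht : t = 0 := by
    rw [hSha] at h2
    by_contra hne
    have := Nat.one_lt_pow hne (Fact.out : p.Prime).one_lt
    omega
  subst ht
  -- the Kummer classes
  have hk : ∀ i, (kj i).1 ∈ B := by
    intro i
    obtain ⟨Q, hQ0, hQ, hc⟩ := hkj i
    have hstep : ∀ x : {x : Fix s // ∃ y : Fix s, x = p • y},
        ∃ x' : {x : Fix s // ∃ y : Fix s, x = p • y}, p • x'.1 = x.1 := by
      rintro ⟨x, y, rfl⟩
      obtain ⟨z, hz⟩ := div_mul h0 h y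
      exact ⟨⟨p • z, z, rfl⟩, hz.symm⟩
    choose f hf using hstep
    obtain ⟨R, hR0, hR⟩ : ∃ R : ℕ → {x : Fix s // ∃ y : Fix s, x = p • y},
        (R 0).1 = p • (⟨Q 0, hQ0⟩ : Fix s) ∧ ∀ n, p • (R (n + 1)).1 = (R n).1 :=
      ⟨fun n => Nat.rec ⟨p • (⟨Q 0, hQ0⟩ : Fix s), _, rfl⟩ (fun _ x => f x) n, rfl, fun n => hf _⟩
    have hR' : ∀ n, p • ((R (n + 1)).1 : A) = ((R n).1 : A) := fun n => congrArg Subtype.val (hR n)
    have hX : ∀ n, p • (p • Q (n + 1) - ((R (n + 1)).1 : A)) = p • Q n - ((R n).1 : A) := by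
      intro n
      rw [smul_sub, hQ, hR']
    obtain ⟨x, hx⟩ : ∃ x : VT p A, ∀ n, x.1 n = p • Q n - ((R n).1 : A) := by
      refine ⟨⟨fun n => p • Q n - ((R n).1 : A), fun n => ⟨hX n, n, ?_⟩⟩, fun n => rfl⟩
      have h5 := IsV.shift (p := p) (x := fun n => p • Q n - ((R n).1 : A)) hX 0 n
      rw [zero_add] at h5
      rw [h5]
      show p • Q 0 - ((R 0).1 : A) = 0
      rw [hR0]
      exact sub_self _
    have h6 : ((p : ℕ) : ℚ_[p]) • (kj i).1 ∈ B := by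
      rw [hB]
      refine ⟨x, fun σ n => ?_⟩
      rw [Pi.smul_apply, nsmul_coord, hc, hx, map_sub, map_nsmul, (R n).1.2 σ, smul_sub]
      abel
    have h7 := B.smul_mem (((p : ℕ) : ℚ_[p]))⁻¹ h6
    rwa [smul_smul, inv_mul_cancel₀ hp0, one_smul] at h7
  intro c hc
  obtain ⟨β, α, h4⟩ := hgen ⟨c, hc⟩
  have h5 : ∑ i, α i • (kj i).1 ∈ B := B.sum_mem fun i _ => B.smul_mem _ (hk i)
  have h6 := B.add_mem h4 h5
  rw [Finset.univ_eq_empty, Finset.sum_empty, sub_zero, sub_add_cancel] at h6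
  exact h6

end

end Pool.Agent.V11329.JS
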