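import Pool.Agent.V11329.JS.Sel

/-!
# Generators of the cokernel of the Kummer map
-/

set_option autoImplicit false

namespace Pool.Agent.V11329.JS

open Pool.Agent.V11329.KI

section basis

variable {p : ℕ} [Fact p.Prime]

lemma exists_basis' {D : Type} [AddCommGroup D] [Finite D] [Module (ZMod p) D] :
    ∃ (t : ℕ) (b : Fin t → D), p ^ t = Nat.card D ∧ (∀ x : D, ∃ a : Fin t → ℤ, x = ∑ j, a j • b j) ∧
      ∀ a : Fin t → ℤ, ∑ j, a j • b j = 0 → ∀ j, (p : ℤ) ∣ a j := by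
  have hfin : Module.Finite (ZMod p) D := Module.Finite.of_finite
  obtain ⟨bs, -⟩ : ∃ bs : Module.Basis (Fin (Module.finrank (ZMod p) D)) (ZMod p) D, True :=
    ⟨Module.finBasis (ZMod p) D, trivial⟩
  have hs : ∀ (a : ℤ) (x : D), ((a : ℤ) : ZMod p) • x = a • x := fun a x =>
    Int.cast_smul_eq_zsmul _ _ _
  refine ⟨Module.finrank (ZMod p) D, fun j => bs j, ?_, fun x => ?_, fun a ha j => ?_⟩
  · have _ := Fintype.ofFinite D
    rw [Nat.card_eq_fintype_card, Module.card_eq_pow_finrank (K := ZMod p), ZMod.card]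
  · refine ⟨fun j => ((bs.repr x j).val : ℤ), ?_⟩
    conv_lhs => rw [← bs.sum_repr x]
    refine Finset.sum_congr rfl fun j _ => ?_
    rw [← hs]
    congr 1
    push_cast
    exact (ZMod.natCast_zmod_val _).symm
  · have h1 : ∑ j, ((a j : ℤ) : ZMod p) • bs j = 0 := by
      rw [← ha]
      exact Finset.sum_congr rfl fun j _ => hs _ _
    have h2 := Fintype.linearIndependent_iff.1 bs.linearIndependent _ h1 j
    exact (ZMod.intCast_zmod_eq_zero_iff_dvd _ _).1 h2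

/-- a basis of a finite elementary abelian `p`-group -/
lemma exists_basis {D : Type} [AddCommGroup D] [Finite D] (h : ∀ x : D, p • x = 0) :
    ∃ (t : ℕ) (b : Fin t → D), p ^ t = Nat.card D ∧ (∀ x : D, ∃ a : Fin t → ℤ, x = ∑ j, a j • b j) ∧
      ∀ a : Fin t → ℤ, ∑ j, a j • b j = 0 → ∀ j, (p : ℤ) ∣ a j :=
  @exists_basis' p _ D _ _ (AddCommGroup.zmodModule h)

end basis

section

variable {G : Type} {A : Type} [AddCommGroup A] {p : ℕ} [Fact p.Prime]
variable {s : G → A →+ A} {S C : AddSubgroup (G → A)}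

/-- the coordinates of a cocycle -/
def cf (Z : Submodule ℚ_[p] (G → VT p A))
    (hZ : ∀ c, c ∈ Z ↔ ∀ n, (fun σ => (c σ).1 n) ∈ S) (c : Z) (n : ℕ) : S :=
  ⟨fun σ => (c.1 σ).1 n, (hZ c.1).1 c.2 n⟩

/-- **The theorem on the cokernel of the Kummer map.** -/
theorem main (hdiv : ∀ x : A, ∃ y, p • y = x)
    (Z B : Submodule ℚ_[p] (G → VT p A))
    (hZ : ∀ c, c ∈ Z ↔ ∀ n, (fun σ => (c σ).1 n) ∈ S)
    (hB : ∀ c, c ∈ B ↔ ∃ x : VT p A, ∀ σ n, (c σ).1 n = s σ (x.1 n) - x.1 n)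
    (hC : ∀ f, f ∈ C ↔ ∃ P, ∀ σ, f σ = s σ P - P)
    (hcob : ∀ P, dl s P ∈ S)
    (htor : ∀ f ∈ S, (∀ σ, ∃ m : ℕ, (p ^ m : ℕ) • f σ = 0) → ∃ K : ℕ, ∀ σ, (p ^ K : ℕ) • f σ = 0)
    (hSha : Finite {x : S ⧸ C.addSubgroupOf S // p • x = 0})
    (hQ : Finite (Fix s ⧸ (nsmulAddMonoidHom p : Fix s →+ Fix s).range)) :
    ∃ r t : ℕ, p ^ r = Nat.card (Fix s ⧸ (nsmulAddMonoidHom p : Fix s →+ Fix s).range) ∧
      p ^ t ≤ Nat.card {x : S ⧸ C.addSubgroupOf S // p • x = 0} ∧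
      (∀ n : ℕ, ∃ f : (Fin t → ZMod (p ^ n)) →+ S ⧸ C.addSubgroupOf S, Function.Injective f) ∧
      ∃ (cj : Fin t → Z) (kj : Fin r → Z),
        (∀ i, ∃ Q : ℕ → A, Q 0 ∈ Fix s ∧ (∀ n, p • Q (n + 1) = Q n) ∧
          ∀ σ n, ((kj i).1 σ).1 n = s σ (Q n) - Q n) ∧
        ∀ c : Z, ∃ (β : Fin t → ℚ_[p]) (α : Fin r → ℚ_[p]),
          c.1 - ∑ j, β j • (cj j).1 - ∑ i, α i • (kj i).1 ∈ B := by
  classical
  -- the rational points modulo `p`
  obtain ⟨r, gb, hr, hgb, -⟩ := exists_basis (p := p)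
    (D := Fix s ⧸ (nsmulAddMonoidHom p : Fix s →+ Fix s).range) (fun x => by
      obtain ⟨y, rfl⟩ := QuotientAddGroup.mk_surjective x
      rw [← QuotientAddGroup.mk_nsmul, QuotientAddGroup.eq_zero_iff]
      exact ⟨y, rfl⟩)
  choose g hg using fun i => QuotientAddGroup.mk_surjective (gb i)
  have hgen : ∀ y ∈ Fix s, ∃ a : Fin r → ℤ, ∃ y' ∈ Fix s, y = ∑ i, a i • (g i : A) + p • y' := by
    intro y hy
    obtain ⟨a, ha⟩ := hgb (QuotientAddGroup.mk (⟨y, hy⟩ : Fix s))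
    have h1 : (QuotientAddGroup.mk ((⟨y, hy⟩ : Fix s) - ∑ i, a i • g i) :
        Fix s ⧸ (nsmulAddMonoidHom p : Fix s →+ Fix s).range) = 0 := by
      have e : (QuotientAddGroup.mk (∑ i, a i • g i) :
          Fix s ⧸ (nsmulAddMonoidHom p : Fix s →+ Fix s).range) = ∑ i, a i • gb i := by
        have e2 := map_sum (QuotientAddGroup.mk' (nsmulAddMonoidHom p : Fix s →+ Fix s).range)
          (fun i => a i • g i) Finset.univ
        refine e2.trans (Finset.sum_congr rfl fun i _ => ?_)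
        rw [map_zsmul, ← hg i]
        rfl
      rw [QuotientAddGroup.mk_sub, ha, e, sub_self]
    rw [QuotientAddGroup.eq_zero_iff] at h1
    obtain ⟨y', hy'⟩ := h1
    refine ⟨a, y', y'.2, ?_⟩
    have h2 := congrArg Subtype.val hy'
    have h3 : p • (y' : A) = y - ∑ i, a i • (g i : A) := by
      have e : ((nsmulAddMonoidHom p : Fix s →+ Fix s) y' : Fix s).1 = p • (y' : A) := rfl
      rw [← e, h2, AddSubgroup.coe_sub, AddSubgroup.val_finsetSum]
      rfl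
    rw [h3]
    abel
  choose f0 hf0 using hdiv
  obtain ⟨Gs, hGs0, hGs⟩ : ∃ Gs : Fin r → ℕ → A, (∀ i, Gs i 0 = g i) ∧
      ∀ i n, p • Gs i (n + 1) = Gs i n :=
    ⟨fun i n => Nat.rec (g i : A) (fun _ x => f0 x) n, fun i => rfl, fun i n => hf0 _⟩
  have hdiv : ∀ x : A, ∃ y, p • y = x := fun x => ⟨f0 x, hf0 x⟩
  have hGF : ∀ i, Gs i 0 ∈ Fix s := fun i => by rw [hGs0]; exact (g i).2
  -- the divisible part of `Ш[p]`
  obtain ⟨mk, hmk⟩ : ∃ mk : S →+ S ⧸ C.addSubgroupOf S, mk = QuotientAddGroup.mk' _ := ⟨_, rfl⟩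
  have hmk0 : ∀ f : S, mk f = 0 ↔ ∃ P, ∀ σ, f.1 σ = s σ P - P := by
    intro f
    rw [hmk]
    have e : (QuotientAddGroup.mk' (C.addSubgroupOf S)) f = 0 ↔ f ∈ C.addSubgroupOf S :=
      QuotientAddGroup.eq_zero_iff f
    rw [e, AddSubgroup.mem_addSubgroupOf, hC]
  obtain ⟨D, hDm⟩ : ∃ D : AddSubgroup (S ⧸ C.addSubgroupOf S), ∀ x, x ∈ D ↔
      ∃ c : Z, (∀ σ, (c.1 σ).1 0 = 0) ∧ mk (cf Z hZ c 1) = x := by
    refine ⟨⟨⟨⟨{x | ∃ c : Z, (∀ σ, (c.1 σ).1 0 = 0) ∧ mk (cf Z hZ c 1) = x}, ?_⟩, ?_⟩, ?_⟩,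
      fun x => Iff.rfl⟩
    · rintro x y ⟨c, hc, rfl⟩ ⟨d, hd, rfl⟩
      refine ⟨c + d, fun σ => ?_, ?_⟩
      · show (c.1 σ).1 0 + (d.1 σ).1 0 = 0
        rw [hc, hd, add_zero]
      · rw [← map_add]
        rfl
    · refine ⟨0, fun σ => rfl, ?_⟩
      rw [← map_zero mk]
      rfl
    · rintro x ⟨c, hc, rfl⟩
      refine ⟨-c, fun σ => ?_, ?_⟩
      · show -(c.1 σ).1 0 = 0
        rw [hc, neg_zero]
      · rw [← map_neg]
        rfl
  have hpk : ∀ (c : Z), (∀ σ, (c.1 σ).1 0 = 0) → ∀ n, (p ^ n : ℕ) • cf Z hZ c n = 0 := by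
    intro c hc n
    apply Subtype.ext
    funext σ
    exact shift0 (hc σ) n
  have hDp : ∀ x : D, p • x = 0 := by
    rintro ⟨x, hx⟩
    obtain ⟨c, hc, rfl⟩ := (hDm x).1 hx
    apply Subtype.ext
    show p • mk (cf Z hZ c 1) = 0
    have h1 := hpk c hc 1
    rw [pow_one] at h1
    rw [← map_nsmul, h1, map_zero]
  have hDfin : Finite D := by
    refine Finite.of_injective (β := {x : S ⧸ C.addSubgroupOf S // p • x = 0})
      (fun x => ⟨x.1, congrArg Subtype.val (hDp x)⟩) ?_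
    intro x y h
    exact Subtype.ext (Subtype.mk.inj h)
  obtain ⟨t, b, ht, hb, hbi⟩ := exists_basis hDp
  choose cj hcj0 hcj using fun j => (hDm (b j).1).1 (b j).2
  refine ⟨r, t, hr, ?_, ?_, cj, fun i => ⟨kc s (Gs i) (hGF i) (hGs i), ?_⟩, fun i =>
    ⟨Gs i, hGF i, hGs i, fun σ n => rfl⟩, ?_⟩
  · rw [ht]
    refine Nat.card_le_card_of_injective
      (fun x : D => (⟨x.1, congrArg Subtype.val (hDp x)⟩ : {x : S ⧸ C.addSubgroupOf S // p • x = 0})) ?_
    intro x y h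
    exact Subtype.ext (Subtype.mk.inj h)
  · -- the embeddings
    intro n
    have hy : ∀ j, (zmultiplesHom (S ⧸ C.addSubgroupOf S) (mk (cf Z hZ (cj j) n))) ((p ^ n : ℕ) : ℤ) = 0 := by
      intro j
      rw [zmultiplesHom_apply, natCast_zsmul, ← map_nsmul, hpk (cj j) (hcj0 j), map_zero]
    obtain ⟨L, hL⟩ : ∃ L : Fin t → ZMod (p ^ n) →+ S ⧸ C.addSubgroupOf S, ∀ j (k : ℤ),
        L j (k : ZMod (p ^ n)) = k • mk (cf Z hZ (cj j) n) :=
      ⟨fun j => ZMod.lift (p ^ n) ⟨zmultiplesHom (S ⧸ C.addSubgroupOf S) (mk (cf Z hZ (cj j) n)), hy j⟩,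
        fun j k => by
          rw [ZMod.lift_coe]
          rfl⟩
    obtain ⟨F, hF⟩ : ∃ F : (Fin t → ZMod (p ^ n)) →+ S ⧸ C.addSubgroupOf S, ∀ v, F v = ∑ j, L j (v j) :=
      ⟨AddMonoidHom.mk' (fun v => ∑ j, L j (v j)) (fun v w => by
        simp only [Pi.add_apply, map_add, Finset.sum_add_distrib]), fun v => rfl⟩
    refine ⟨F, (injective_iff_map_eq_zero F).2 fun v hv => ?_⟩
    choose k hk using fun j => ZMod.intCast_surjective (v j)
    have h1 : ∑ j, k j • mk (cf Z hZ (cj j) n) = 0 := by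
      rw [← hv, hF]
      refine Finset.sum_congr rfl fun j _ => ?_
      rw [← hL, hk]
    have h2 : ∀ m, m ≤ n → ∀ j, ((p : ℤ) ^ m) ∣ k j := by
      intro m
      induction m with
      | zero =>
        intro _ j
        rw [pow_zero]
        exact one_dvd _
      | succ m ih =>
        intro hm
        choose l hl using ih (by omega)
        have hsh : ∀ j, (p ^ (n - 1) : ℕ) • mk (cf Z hZ (cj j) n) = (b j).1 := by
          intro j
          rw [← map_nsmul, ← hcj j]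
          congr 1
          apply Subtype.ext
          funext σ
          have h3 := IsV.shift (fun n => (((cj j).1 σ).2 n).1) 1 (n - 1)
          have h4 : 1 + (n - 1) = n := by omega
          rw [h4] at h3
          exact h3
        have h3 : ∑ j, l j • b j = 0 := by
          apply Subtype.ext
          rw [AddSubgroup.val_finsetSum]
          have h4 := congrArg (fun x => (p ^ (n - 1 - m) : ℕ) • x) h1
          simp only [smul_zero, Finset.smul_sum] at h4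
          show _ = (0 : S ⧸ C.addSubgroupOf S)
          rw [← h4]
          refine Finset.sum_congr rfl fun j _ => ?_
          show l j • (b j).1 = _
          rw [← hsh j, hl j]
          simp only [← natCast_zsmul]
          rw [← mul_smul, ← mul_smul]
          congr 1
          have h5 : n - 1 = (n - 1 - m) + m := by omega
          conv_lhs => rw [h5]
          push_cast
          ring
        intro j
        obtain ⟨u, hu⟩ := hbi l h3 j
        exact ⟨u, by rw [hl j, hu, pow_succ]; ring⟩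
    funext j
    rw [← hk j, Pi.zero_apply, ZMod.intCast_zmod_eq_zero_iff_dvd]
    have := h2 n le_rfl j
    push_cast
    exact this
  · rw [hZ]
    intro n
    exact hcob _
  · -- the generators
    intro c
    obtain ⟨K, hK⟩ := htor _ ((hZ c.1).1 c.2 0) (fun σ => ((c.1 σ).2 0).2)
    have hp0 : ((p ^ K : ℕ) : ℚ_[p]) ≠ 0 := by
      have := (Fact.out : p.Prime).ne_zero
      exact_mod_cast pow_ne_zero K this
    have hc0 : ∀ σ, ((((p ^ K : ℕ) : ℚ_[p]) • c.1) σ).1 0 = 0 := by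
      intro σ
      rw [Pi.smul_apply, nsmul_coord]
      exact hK σ
    have hD' : ∀ c ∈ Z, (∀ σ, (c σ).1 0 = 0) → ∃ b : Fin t → ℤ, ∃ Q, ∀ σ,
        (c σ).1 1 = ∑ j, b j • ((cj j).1 σ).1 1 + (s σ Q - Q) := by
      intro c hc hc0
      obtain ⟨a, ha⟩ := hb ⟨mk (cf Z hZ ⟨c, hc⟩ 1), (hDm _).2 ⟨⟨c, hc⟩, hc0, rfl⟩⟩
      have h1 := congrArg Subtype.val ha
      rw [AddSubgroup.val_finsetSum] at h1
      have h2 : mk (cf Z hZ ⟨c, hc⟩ 1 - ∑ j, a j • cf Z hZ (cj j) 1) = 0 := by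
        rw [map_sub, map_sum, sub_eq_zero]
        refine h1.trans (Finset.sum_congr rfl fun j _ => ?_)
        rw [map_zsmul, hcj j]
        rfl
      obtain ⟨Q, hQ⟩ := (hmk0 _).1 h2
      refine ⟨a, Q, fun σ => ?_⟩
      rw [← hQ σ, AddSubgroup.coe_sub, AddSubgroup.val_finsetSum, Pi.sub_apply, Finset.sum_apply]
      show (c σ).1 1 = _ + ((c σ).1 1 - ∑ j, (a j • cf Z hZ (cj j) 1).1 σ)
      have e : ∀ j, (a j • cf Z hZ (cj j) 1).1 σ = a j • ((cj j).1 σ).1 1 := fun j => rfl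
      rw [Finset.sum_congr rfl fun j _ => e j]
      abel
    obtain ⟨β, α, h⟩ := span0 hdiv Z B hZ hB hcob Gs hGF hGs
      (fun y hy => by
        obtain ⟨a, y', h1, h2⟩ := hgen y hy
        exact ⟨a, y', h1, by simpa only [hGs0] using h2⟩)
      (fun j => (cj j).1) (fun j => (cj j).2) hcj0 hD' (((p ^ K : ℕ) : ℚ_[p]) • c.1)
      (Z.smul_mem _ c.2) hc0
    refine ⟨fun j => (((p ^ K : ℕ) : ℚ_[p]))⁻¹ * β j, fun i => (((p ^ K : ℕ) : ℚ_[p]))⁻¹ * α i, ?_⟩
    have h1 := B.smul_mem (((p ^ K : ℕ) : ℚ_[p]))⁻¹ h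
    rw [smul_sub, smul_sub, smul_smul, inv_mul_cancel₀ hp0, one_smul, Finset.smul_sum,
      Finset.smul_sum] at h1
    simpa only [smul_smul] using h1

end

end Pool.Agent.V11329.JS
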