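import Pool.Agent.V11329.JS.Vec

/-!
# Vanishing of the Selmer group of the rational Tate module: the case of few fixed points
-/

set_option autoImplicit false

namespace Pool.Agent.V11329.JS

open Pool.Agent.V11329.KI

/-- Cocycles with values in the rational Tate module whose coordinates are coboundaries are
coboundaries, if the fixed points are killed by `p`. -/
theorem cob_of {G A : Type} [AddCommGroup A] {p : ℕ} (s : G → A →+ A) (H : AddSubgroup A)
    (c : G → V p A) (h : ∀ n, ∃ P ∈ H, ∀ σ, (c σ).seq n = s σ P - P)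
    (hfix : ∀ P ∈ H, (∀ σ, s σ P = P) → p • P = 0)
    (hK : ∃ K : ℕ, ∀ σ, (p ^ K : ℕ) • (c σ).seq 0 = 0) :
    ∃ x : V p A, (∀ n, x.seq n ∈ H) ∧ ∀ σ n, (c σ).seq n = s σ (x.seq n) - x.seq n := by
  choose P hPH hP using h
  have hc : ∀ σ n, p • (c σ).seq (n + 1) = (c σ).seq n := fun σ n => ((c σ).2 n).1
  have hX : ∀ n, p • (p • P (n + 1)) = p • P n := by
    intro n
    have h0 : p • (p • P (n + 1) - P n) = 0 := by
      refine hfix _ (H.sub_mem (H.nsmul_mem (hPH _) p) (hPH _)) fun σ => ?_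
      have h1 := hc σ n
      rw [hP, hP, smul_sub] at h1
      rw [map_sub, map_nsmul]
      rw [sub_eq_sub_iff_add_eq_add] at h1 ⊢
      rw [h1, add_comm]
    rwa [smul_sub, sub_eq_zero] at h0
  obtain ⟨K, hK⟩ := hK
  have hK0 : p • ((p ^ K : ℕ) • P 0) = 0 := by
    refine hfix _ (H.nsmul_mem (hPH _) _) fun σ => ?_
    have h1 := hK σ
    rw [hP, smul_sub, sub_eq_zero, ← map_nsmul] at h1
    exact h1
  refine ⟨(⟨fun n => p • P (n + 1), fun n => ⟨hX (n + 1), K + (n + 1), ?_⟩⟩ : VT p A),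
    fun n => H.nsmul_mem (hPH _) p, fun σ n => ?_⟩
  · have h1 := IsV.shift (p := p) (x := fun n => p • P n) hX 0 (n + 1)
    rw [zero_add] at h1
    rw [pow_add, mul_smul, h1, smul_comm]
    exact hK0
  · show (c σ).seq n = s σ (p • P (n + 1)) - p • P (n + 1)
    rw [← hc, hP, smul_sub, map_nsmul]

end Pool.Agent.V11329.JS
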