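import Pool.Agent.V11329.KI.Abs

/-!
# The rational Tate module of an abelian group as a vector space over `ℚ_p`
-/

set_option autoImplicit false

namespace Pool.Agent.V11329.JS

open Pool.Agent.V11329.KI

section

variable {A : Type*} [AddCommGroup A] {p : ℕ} [Fact p.Prime]

lemma mul_one_left {x : ℕ → A} (hx : IsV p x) : mul (1 : ℚ_[p]) x = x := by
  funext n
  obtain ⟨m, hm⟩ := (hx n).2
  have h := mul_spec (1 : ℚ_[p]) hx n 0 m 1 hm (by
    have e : (p : ℚ_[p]) ^ 0 * 1 - ((1 : ℤ) : ℚ_[p]) = 0 := by simp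
    rw [e, norm_zero]
    have hp0 : (0 : ℝ) < p := by exact_mod_cast (Fact.out : p.Prime).pos
    positivity)
  rw [h, one_smul, add_zero]

lemma mul_zero_left {x : ℕ → A} (hx : IsV p x) : mul (0 : ℚ_[p]) x = 0 := by
  funext n
  obtain ⟨m, hm⟩ := (hx n).2
  have h := mul_spec (0 : ℚ_[p]) hx n 0 m 0 hm (by
    have e : (p : ℚ_[p]) ^ 0 * 0 - ((0 : ℤ) : ℚ_[p]) = 0 := by simp
    rw [e, norm_zero]
    have hp0 : (0 : ℝ) < p := by exact_mod_cast (Fact.out : p.Prime).pos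
    positivity)
  rw [h, zero_smul]
  rfl

lemma mul_zero_right (α : ℚ_[p]) : mul α (0 : ℕ → A) = 0 := by
  funext n
  obtain ⟨k, m, a, h1, h2⟩ := data α (IsV.zero (A := A)) n
  rw [mul_spec α IsV.zero n k m a h1 h2]
  simp

lemma mul_mul' (α β : ℚ_[p]) {x : ℕ → A} (hx : IsV p x) :
    mul α (mul β x) = mul (α * β) x := by
  have hp0 : (0 : ℝ) < p := by exact_mod_cast (Fact.out : p.Prime).pos
  have hp1 : (1 : ℝ) ≤ p := by exact_mod_cast (Fact.out : p.Prime).one_lt.le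
  have hy := mul_isV β hx
  funext n
  obtain ⟨k, hk⟩ := approx α
  obtain ⟨l, hl⟩ := approx β
  obtain ⟨m', hm'⟩ := (hx (n + k + l)).2
  obtain ⟨m, hm⟩ := (hy (n + k)).2
  obtain ⟨b, hb⟩ := hl l le_rfl m'
  obtain ⟨a, ha⟩ := hk k le_rfl (m + m')
  have e1 : mul α (mul β x) n = a • mul β x (n + k) := by
    refine mul_spec α hy n k m a hm (ha.trans ?_)
    exact zpow_le_zpow_right₀ hp1 (by push_cast; linarith)
  have e2 : mul β x (n + k) = b • x (n + k + l) := mul_spec β hx (n + k) l m' b hm' hb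
  have h1 : ‖(p : ℚ_[p]) ^ k * α‖ ≤ 1 := by
    have e : (p : ℚ_[p]) ^ k * α = ((p : ℚ_[p]) ^ k * α - (a : ℚ_[p])) + (a : ℚ_[p]) := by ring
    rw [e]
    refine (Padic.nonarchimedean _ _).trans (max_le (ha.trans ?_) (Padic.norm_int_le_one a))
    rw [zpow_neg]
    exact inv_le_one_of_one_le₀ (one_le_zpow₀ hp1 (by positivity))
  have hab : ‖(p : ℚ_[p]) ^ (k + l) * (α * β) - ((a * b : ℤ) : ℚ_[p])‖ ≤ (p : ℝ) ^ (-(m' : ℤ)) := by
    have e : (p : ℚ_[p]) ^ (k + l) * (α * β) - ((a * b : ℤ) : ℚ_[p]) =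
        ((p : ℚ_[p]) ^ k * α) * ((p : ℚ_[p]) ^ l * β - (b : ℚ_[p])) +
          (b : ℚ_[p]) * ((p : ℚ_[p]) ^ k * α - (a : ℚ_[p])) := by
      push_cast
      ring
    rw [e]
    refine (Padic.nonarchimedean _ _).trans (max_le ?_ ?_)
    · rw [norm_mul]
      calc _ ≤ 1 * (p : ℝ) ^ (-(m' : ℤ)) :=
            mul_le_mul h1 hb (norm_nonneg _) zero_le_one
        _ = _ := one_mul _
    · rw [norm_mul]
      have ha' : ‖(p : ℚ_[p]) ^ k * α - (a : ℚ_[p])‖ ≤ (p : ℝ) ^ (-(m' : ℤ)) :=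
        ha.trans (zpow_le_zpow_right₀ hp1 (by push_cast; linarith))
      calc _ ≤ 1 * (p : ℝ) ^ (-(m' : ℤ)) :=
            mul_le_mul (Padic.norm_int_le_one b) ha' (norm_nonneg _) zero_le_one
        _ = _ := one_mul _
  have e3 := mul_spec (α * β) hx n (k + l) m' (a * b) (by rw [← add_assoc]; exact hm') hab
  rw [e1, e2, e3, mul_smul, add_assoc]

end

/-- The rational Tate module `V_p(A)`: the sequences `x₀, x₁, …` of elements of `p`-power order of `A`
with `p x_{n+1} = x_n`. -/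
def VT (p : ℕ) (A : Type*) [AddCommGroup A] : AddSubgroup (ℕ → A) where
  carrier := {x | ∀ n, p • x (n + 1) = x n ∧ ∃ m : ℕ, (p ^ m : ℕ) • x n = 0}
  zero_mem' := IsV.zero
  add_mem' := fun hx hy => IsV.add hx hy
  neg_mem' := fun hx => IsV.neg hx

section

variable {A : Type*} [AddCommGroup A] {p : ℕ} [Fact p.Prime]

/-- The product of the `p`-adic number `α` and of the sequence `x` in `V_p(A)`: its `n`-th element is
`a x_{n+k}` for all integers `a` that are so close to `p ^ k α` that this does not depend on `a`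
(`mul_spec`). -/
noncomputable instance : Module ℚ_[p] (VT p A) where
  smul α x := ⟨mul α x.1, mul_isV α x.2⟩
  one_smul x := Subtype.ext (mul_one_left x.2)
  mul_smul α β x := Subtype.ext (mul_mul' α β x.2).symm
  smul_zero α := Subtype.ext (mul_zero_right α)
  smul_add α x y := Subtype.ext (mul_add_right α x.2 y.2)
  add_smul α β x := Subtype.ext (mul_add_left α β x.2)
  zero_smul x := Subtype.ext (mul_zero_left x.2)

lemma smul_val (α : ℚ_[p]) (x : VT p A) : (α • x).1 = mul α x.1 := rfl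

lemma smul_coord {α : ℚ_[p]} {x : VT p A} {n k m : ℕ} {a : ℤ} (h : (p ^ m : ℕ) • x.1 (n + k) = 0)
    (ha : ‖(p : ℚ_[p]) ^ k * α - (a : ℚ_[p])‖ ≤ (p : ℝ) ^ (-(m : ℤ))) :
    (α • x).1 n = a • x.1 (n + k) := mul_spec α x.2 n k m a h ha

lemma zsmul_coord (a : ℤ) (x : VT p A) (n : ℕ) : (((a : ℤ) : ℚ_[p]) • x).1 n = a • x.1 n := by
  rw [Int.cast_smul_eq_zsmul]
  rfl

lemma nsmul_coord (a : ℕ) (x : VT p A) (n : ℕ) : (((a : ℕ) : ℚ_[p]) • x).1 n = a • x.1 n := by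
  rw [Nat.cast_smul_eq_nsmul]
  rfl

end

end Pool.Agent.V11329.JS
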