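import Pool.Agent.V11329.JS.Mod

/-!
# The cokernel of the Kummer map and the Tate–Shafarevich group: the abstract theorem

No finiteness theorem for the group of the fixed points is needed, only that it is finitely generated
modulo `p`.
-/

set_option autoImplicit false

namespace Pool.Agent.V11329.JS

open Pool.Agent.V11329.KI

section lim

variable {p : ℕ} [Fact p.Prime]

/-- the sum of a `p`-adic series -/
lemma exists_lim (b : ℕ → ℤ) : ∃ z : ℚ_[p], ∀ n : ℕ,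
    ‖z - ((∑ k ∈ Finset.range n, (p : ℤ) ^ k * b k : ℤ) : ℚ_[p])‖ ≤ (p : ℝ) ^ (-(n : ℤ)) := by
  have hp1 : (1 : ℝ) < p := by exact_mod_cast (Fact.out : p.Prime).one_lt
  obtain ⟨sc, hsc⟩ : ∃ sc : ℕ → ℤ, ∀ n, sc n = ∑ k ∈ Finset.range n, (p : ℤ) ^ k * b k :=
    ⟨_, fun _ => rfl⟩
  have hstep : ∀ n, ‖(sc (n + 1) : ℚ_[p]) - (sc n : ℚ_[p])‖ ≤ (p : ℝ) ^ (-(n : ℤ)) := by
    intro n
    have e : (sc (n + 1) : ℚ_[p]) - (sc n : ℚ_[p]) = (((p : ℤ) ^ n * b n : ℤ) : ℚ_[p]) := by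
      rw [hsc, hsc, Finset.sum_range_succ]
      push_cast
      ring
    rw [e, Padic.norm_int_le_pow_iff_dvd]
    exact Dvd.intro _ rfl
  have hfar : ∀ n d, ‖(sc (n + d) : ℚ_[p]) - (sc n : ℚ_[p])‖ ≤ (p : ℝ) ^ (-(n : ℤ)) := by
    intro n d
    induction d with
    | zero =>
      rw [add_zero, sub_self, norm_zero]
      positivity
    | succ d ih =>
      have e : (sc (n + (d + 1)) : ℚ_[p]) - (sc n : ℚ_[p]) =
          ((sc (n + d + 1) : ℚ_[p]) - (sc (n + d) : ℚ_[p])) +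
            ((sc (n + d) : ℚ_[p]) - (sc n : ℚ_[p])) := by
        rw [← add_assoc]
        ring
      rw [e]
      refine (Padic.nonarchimedean _ _).trans (max_le ((hstep (n + d)).trans ?_) ih)
      exact zpow_le_zpow_right₀ hp1.le (by push_cast; linarith)
  have hcau : CauchySeq (fun n => (sc n : ℚ_[p])) := by
    rw [Metric.cauchySeq_iff']
    intro ε hε
    obtain ⟨N, hN⟩ := exists_pow_lt_of_lt_one hε (inv_lt_one_of_one_lt₀ hp1)
    refine ⟨N, fun n hn => ?_⟩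
    obtain ⟨d, rfl⟩ := Nat.exists_eq_add_of_le hn
    rw [dist_eq_norm]
    refine (hfar N d).trans_lt (lt_of_le_of_lt ?_ hN)
    rw [inv_pow, ← zpow_natCast, ← zpow_neg]
  obtain ⟨z, hz⟩ := cauchySeq_tendsto_of_complete hcau
  refine ⟨z, fun n => ?_⟩
  have h1 : Filter.Tendsto (fun N => ‖(sc N : ℚ_[p]) - (sc n : ℚ_[p])‖) Filter.atTop
      (nhds ‖z - (sc n : ℚ_[p])‖) := (hz.sub_const _).norm
  rw [← hsc]
  refine le_of_tendsto h1 ?_
  filter_upwards [Filter.eventually_ge_atTop n] with N hN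
  obtain ⟨d, rfl⟩ := Nat.exists_eq_add_of_le hN
  exact hfar n d

end lim

section

variable {G : Type*} {A : Type*} [AddCommGroup A] {p : ℕ} [Fact p.Prime]
variable {s : G → A →+ A} {S : AddSubgroup (G → A)}

/-- compatible sequences beginning with a given element -/
lemma exists_seq (hdiv : ∀ x : A, ∃ y, p • y = x) (x : A) (hx : p • x = 0) :
    ∃ X : VT p A, X.1 0 = 0 ∧ X.1 1 = x := by
  choose f hf using hdiv
  obtain ⟨Q, hQ0, hQ⟩ : ∃ Q : ℕ → A, Q 0 = x ∧ ∀ n, p • Q (n + 1) = Q n :=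
    ⟨fun n => Nat.rec x (fun _ x => f x) n, rfl, fun n => hf _⟩
  have hX : ∀ n, p • (fun n => Nat.casesOn n 0 Q : ℕ → A) (n + 1) =
      (fun n => Nat.casesOn n 0 Q : ℕ → A) n := by
    intro n
    cases n with
    | zero =>
      show p • Q 0 = 0
      rw [hQ0, hx]
    | succ n => exact hQ n
  refine ⟨⟨fun n => Nat.casesOn n 0 Q, fun n => ⟨hX n, n, ?_⟩⟩, rfl, hQ0⟩
  have h := IsV.shift hX 0 n
  rw [zero_add] at h
  exact h

/-- the Kummer cocycle of a compatible sequence -/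
def kc (s : G → A →+ A) (Q : ℕ → A) (h0 : Q 0 ∈ Fix s) (hQ : ∀ n, p • Q (n + 1) = Q n) :
    G → VT p A := fun σ => ⟨fun n => s σ (Q n) - Q n, dq_isV h0 hQ σ⟩

lemma shift0 {x : VT p A} (h0 : x.1 0 = 0) (n : ℕ) : (p ^ n : ℕ) • x.1 n = 0 := by
  have h := IsV.shift (fun n => (x.2 n).1) 0 n
  rw [zero_add] at h
  rw [h, h0]

/-- multiplication by an integral `p`-adic number -/
lemma smul_coord0 {x : VT p A} (h0 : x.1 0 = 0) {z : ℚ_[p]} {n : ℕ} {a : ℤ}
    (h : ‖z - (a : ℚ_[p])‖ ≤ (p : ℝ) ^ (-(n : ℤ))) : (z • x).1 n = a • x.1 n := by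
  have h1 := smul_coord (α := z) (x := x) (n := n) (k := 0) (m := n) (a := a)
    (by rw [add_zero]; exact shift0 h0 n) (by rw [pow_zero, one_mul]; exact h)
  rw [h1, add_zero]

/-- The approximation: the cocycles whose values begin with zero. -/
theorem span0 (hdiv : ∀ x : A, ∃ y, p • y = x)
    (Z B : Submodule ℚ_[p] (G → VT p A))
    (hZ : ∀ c, c ∈ Z ↔ ∀ n, (fun σ => (c σ).1 n) ∈ S)
    (hB : ∀ c, c ∈ B ↔ ∃ x : VT p A, ∀ σ n, (c σ).1 n = s σ (x.1 n) - x.1 n)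
    (hcob : ∀ P, dl s P ∈ S)
    {r t : ℕ} (Gs : Fin r → ℕ → A) (hG0 : ∀ i, Gs i 0 ∈ Fix s)
    (hG : ∀ i n, p • Gs i (n + 1) = Gs i n)
    (hgen : ∀ y ∈ Fix s, ∃ a : Fin r → ℤ, ∃ y' ∈ Fix s, y = ∑ i, a i • Gs i 0 + p • y')
    (cj : Fin t → G → VT p A) (hcjZ : ∀ j, cj j ∈ Z) (hcj0 : ∀ j σ, (cj j σ).1 0 = 0)
    (hD : ∀ c ∈ Z, (∀ σ, (c σ).1 0 = 0) → ∃ b : Fin t → ℤ, ∃ Q, ∀ σ,
      (c σ).1 1 = ∑ j, b j • (cj j σ).1 1 + (s σ Q - Q))
    (c : G → VT p A) (hc : c ∈ Z) (hc0 : ∀ σ, (c σ).1 0 = 0) :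
    ∃ (β : Fin t → ℚ_[p]) (α : Fin r → ℚ_[p]),
      c - ∑ j, β j • cj j - ∑ i, α i • kc s (Gs i) (hG0 i) (hG i) ∈ B := by
  classical
  obtain ⟨kg, hkg⟩ : ∃ kg : Fin r → G → VT p A, ∀ i σ n, (kg i σ).1 n = s σ (Gs i n) - Gs i n ∧
      kg i = kc s (Gs i) (hG0 i) (hG i) := ⟨fun i => kc s (Gs i) (hG0 i) (hG i), fun i σ n => ⟨rfl, rfl⟩⟩
  have hkg0 : ∀ i σ, (kg i σ).1 0 = 0 := fun i σ => by rw [(hkg i σ 0).1, hG0 i σ, sub_self]
  have hkgZ : ∀ i, kg i ∈ Z := fun i => (hZ _).2 fun n => by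
    have e : (fun σ => (kg i σ).1 n) = dl s (Gs i n) := by
      funext σ
      exact (hkg i σ n).1
    rw [e]
    exact hcob _
  -- one step
  have step : ∀ w : {c : G → VT p A // c ∈ Z ∧ ∀ σ, (c σ).1 0 = 0},
      ∃ (b : Fin t → ℤ) (a : Fin r → ℤ) (x : VT p A)
        (w' : {c : G → VT p A // c ∈ Z ∧ ∀ σ, (c σ).1 0 = 0}), x.1 0 = 0 ∧
        ∀ σ n, (w.1 σ).1 n = ∑ j, b j • (cj j σ).1 n + ∑ i, a i • (kg i σ).1 n +
          (s σ (x.1 n) - x.1 n) + p • (w'.1 σ).1 n := by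
    rintro ⟨c, hc, hc0⟩
    obtain ⟨b, Q, hb⟩ := hD c hc hc0
    have hpQ : p • Q ∈ Fix s := by
      intro σ
      have h1 := congrArg (fun x => p • x) (hb σ)
      simp only [smul_add, Finset.smul_sum, smul_sub] at h1
      have h2 : p • (c σ).1 1 = 0 := by
        have := ((c σ).2 0).1
        rw [zero_add] at this
        rw [this, hc0]
      have h3 : ∑ j, p • b j • (cj j σ).1 1 = 0 := by
        refine Finset.sum_eq_zero fun j _ => ?_
        have := ((cj j σ).2 0).1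
        rw [zero_add] at this
        rw [smul_comm, this, hcj0, smul_zero]
      rw [h2, h3, zero_add] at h1
      rw [map_nsmul]
      exact (sub_eq_zero.1 h1.symm)
    obtain ⟨a, y', hy', hy⟩ := hgen _ hpQ
    have hx1 : p • (Q - ∑ i, a i • Gs i 1 - y') = 0 := by
      rw [smul_sub, smul_sub, hy, Finset.smul_sum]
      have e : ∀ i, p • a i • Gs i 1 = a i • Gs i 0 := fun i => by
        rw [smul_comm]
        congr 1
        exact hG i 0
      rw [Finset.sum_congr rfl fun i _ => e i]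
      abel
    obtain ⟨x, hx0, hx⟩ := exists_seq hdiv _ hx1
    -- the difference
    obtain ⟨d, hd⟩ : ∃ d : G → VT p A, d = c - ∑ j, ((b j : ℤ) : ℚ_[p]) • cj j -
      ∑ i, ((a i : ℤ) : ℚ_[p]) • kg i - kc s x.1 (by rw [hx0]; exact (Fix s).zero_mem)
        (fun n => (x.2 n).1) := ⟨_, rfl⟩
    have hdc : ∀ σ n, (d σ).1 n = (c σ).1 n - ∑ j, b j • (cj j σ).1 n -
        ∑ i, a i • (kg i σ).1 n - (s σ (x.1 n) - x.1 n) := by
      intro σ n
      rw [hd]
      simp only [Pi.sub_apply, Finset.sum_apply, Pi.smul_apply, AddSubgroup.coe_sub,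
        AddSubgroup.val_finsetSum, zsmul_coord]
      rfl
    have hdZ : d ∈ Z := by
      rw [hd]
      refine Z.sub_mem (Z.sub_mem (Z.sub_mem hc (Z.sum_mem fun j _ => Z.smul_mem _ (hcjZ j)))
        (Z.sum_mem fun i _ => Z.smul_mem _ (hkgZ i))) ?_
      rw [hZ]
      intro n
      exact hcob _
    have hd1 : ∀ σ, (d σ).1 1 = 0 := by
      intro σ
      rw [hdc, hb σ, hx]
      have e : ∀ i, a i • (kg i σ).1 1 = s σ (a i • Gs i 1) - a i • Gs i 1 := fun i => by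
        rw [(hkg i σ 1).1, smul_sub, map_zsmul]
      rw [Finset.sum_congr rfl fun i _ => e i, Finset.sum_sub_distrib, map_sub, map_sub, map_sum,
        hy' σ]
      abel
    have hw : ∀ σ n, p • (d σ).1 (n + 1 + 1) = (d σ).1 (n + 1) := fun σ n => ((d σ).2 (n + 1)).1
    refine ⟨b, a, x, ⟨fun σ => ⟨fun n => (d σ).1 (n + 1), fun n => (d σ).2 (n + 1)⟩, ?_, hd1⟩, hx0,
      fun σ n => ?_⟩
    · rw [hZ]
      intro n
      exact (hZ d).1 hdZ (n + 1)
    · have h1 : p • (d σ).1 (n + 1) = (d σ).1 n := ((d σ).2 n).1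
      show (c σ).1 n = _ + p • (d σ).1 (n + 1)
      rw [h1, hdc]
      abel
  choose fb fa fx fw hfx hstep using step
  obtain ⟨W, hW0, hW⟩ : ∃ W : ℕ → {c : G → VT p A // c ∈ Z ∧ ∀ σ, (c σ).1 0 = 0},
      W 0 = ⟨c, hc, hc0⟩ ∧ ∀ n, W (n + 1) = fw (W n) :=
    ⟨fun n => Nat.rec ⟨c, hc, hc0⟩ (fun _ w => fw w) n, rfl, fun n => rfl⟩
  have hsum : ∀ N σ n, (c σ).1 n =
      ∑ j, (∑ k ∈ Finset.range N, (p : ℤ) ^ k * fb (W k) j) • (cj j σ).1 n +
      ∑ i, (∑ k ∈ Finset.range N, (p : ℤ) ^ k * fa (W k) i) • (kg i σ).1 n +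
      (s σ (∑ k ∈ Finset.range N, (p ^ k : ℕ) • (fx (W k)).1 n) -
        ∑ k ∈ Finset.range N, (p ^ k : ℕ) • (fx (W k)).1 n) +
      (p ^ N : ℕ) • ((W N).1 σ).1 n := by
    intro N
    induction N with
    | zero =>
      intro σ n
      simp [hW0]
    | succ N ih =>
      intro σ n
      have h1 := ih σ n
      have h2 := hstep (W N) σ n
      rw [← hW] at h2
      rw [h1, h2]
      simp only [Finset.sum_range_succ, add_smul, Finset.sum_add_distrib, map_add, smul_add,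
        Finset.smul_sum, smul_sub, map_nsmul, mul_smul, pow_succ]
      have e1 : ∀ x : A, (p ^ N : ℕ) • x = ((p : ℤ) ^ N) • x := fun x => by
        rw [← natCast_zsmul]
        push_cast
        rfl
      simp only [e1]
      abel
  choose z hz using fun j => exists_lim (p := p) (fun k => fb (W k) j)
  choose y hy using fun i => exists_lim (p := p) (fun k => fa (W k) i)
  refine ⟨z, y, ?_⟩
  rw [hB]
  have hX : ∀ n, p • ∑ k ∈ Finset.range (n + 1), (p ^ k : ℕ) • (fx (W k)).1 (n + 1) =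
      ∑ k ∈ Finset.range n, (p ^ k : ℕ) • (fx (W k)).1 n := by
    intro n
    rw [Finset.smul_sum]
    have e : ∀ k, p • (p ^ k : ℕ) • (fx (W k)).1 (n + 1) = (p ^ k : ℕ) • (fx (W k)).1 n := fun k => by
      rw [smul_comm, ((fx (W k)).2 n).1]
    rw [Finset.sum_congr rfl fun k _ => e k, Finset.sum_range_succ, shift0 (hfx _), add_zero]
  refine ⟨⟨fun n => ∑ k ∈ Finset.range n, (p ^ k : ℕ) • (fx (W k)).1 n, fun n => ⟨hX n, n, ?_⟩⟩,
    fun σ n => ?_⟩
  · rw [Finset.smul_sum]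
    refine Finset.sum_eq_zero fun k _ => ?_
    rw [smul_comm, shift0 (hfx _), smul_zero]
  · have e1 : ∀ j, ((z j • cj j) σ).1 n =
        (∑ k ∈ Finset.range n, (p : ℤ) ^ k * fb (W k) j) • (cj j σ).1 n := fun j =>
      smul_coord0 (hcj0 j σ) (hz j n)
    have e2 : ∀ i, ((y i • kc s (Gs i) (hG0 i) (hG i)) σ).1 n =
        (∑ k ∈ Finset.range n, (p : ℤ) ^ k * fa (W k) i) • (kg i σ).1 n := fun i => by
      rw [← (hkg i σ n).2]
      exact smul_coord0 (hkg0 i σ) (hy i n)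
    have h3 := hsum n σ n
    rw [shift0 ((W n).2.2 σ), add_zero] at h3
    simp only [Pi.sub_apply, Finset.sum_apply, AddSubgroup.coe_sub, AddSubgroup.val_finsetSum]
    rw [Finset.sum_congr rfl fun j _ => e1 j, Finset.sum_congr rfl fun i _ => e2 i, h3]
    abel

end

end Pool.Agent.V11329.JS
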